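import Pool.Agent.W505.Kd.Tools

/-! KD-QUASI: edge counts between large subsets of common neighbourhoods. -/

set_option autoImplicit false
open Classical

namespace Pool.Agent.W505.Kd.Quasi

open Pool.Agent.H362C Pool.Agent.W827.Kd Pool.Agent.W505.Kd

noncomputable section

/-- the pairs between `X` and `Y` -/
def PP (X Y : Finset ℕ) : Finset (Sym2 ℕ) := (X ×ˢ Y).image (fun e => s(e.1, e.2))

lemma mem_PP {X Y : Finset ℕ} {x y : ℕ} (hx : x ∈ X) (hy : y ∈ Y) : s(x, y) ∈ PP X Y :=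
  Finset.mem_image.mpr ⟨(x, y), Finset.mem_product.mpr ⟨hx, hy⟩, rfl⟩

lemma PP_inj {X Y : Finset ℕ} (hd : Disjoint X Y) {e e' : ℕ × ℕ} (he : e ∈ X ×ˢ Y)
    (he' : e' ∈ X ×ˢ Y) (h : s(e.1, e.2) = s(e'.1, e'.2)) : e = e' := by
  rw [Finset.mem_product] at he he'
  rcases Sym2.eq_iff.mp h with ⟨h1, h2⟩ | ⟨h1, h2⟩
  · exact Prod.ext h1 h2
  · exact absurd he'.2 (Finset.disjoint_left.mp hd (h1 ▸ he.1))

lemma PP_card {X Y : Finset ℕ} (hd : Disjoint X Y) : (PP X Y).card = X.card * Y.card := by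
  unfold PP
  rw [Finset.card_image_of_injOn, Finset.card_product]
  intro e he e' he' h
  exact PP_inj hd he he' h

lemma PP_sub {X Y : Finset ℕ} {E : Finset (Sym2 ℕ)} :
    PP X Y ⊆ E ↔ ∀ x ∈ X, ∀ y ∈ Y, s(x, y) ∈ E := by
  unfold PP
  rw [Finset.image_subset_iff]
  constructor
  · intro h x hx y hy
    exact h (x, y) (Finset.mem_product.mpr ⟨hx, hy⟩)
  · intro h e he
    rw [Finset.mem_product] at he
    exact h e.1 he.1 e.2 he.2

lemma exp_bd {x : ℝ} (hx : |x| ≤ 1) : Real.exp x - 1 ≤ x + x ^ 2 := by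
  have := (abs_le.mp (Real.abs_exp_sub_one_sub_id_le hx)).2
  linarith

lemma tail_exy {p : ℝ} (h0 : 0 ≤ p) (h1 : p ≤ 1) {U : Finset (Sym2 ℕ)} {X Y : Finset ℕ}
    (hd : Disjoint X Y) (hU : PP X Y ⊆ U) :
    Pr p U (fun E => (eXY E X Y : ℝ) < (1 / 2) * p * X.card * Y.card) ≤
      Real.exp (-(p * X.card * Y.card / 16)) := by
  have hm : ∀ s : ℝ, Ex p U (fun E => Real.exp (s * (eXY E X Y : ℝ))) ≤
      Real.exp ((Real.exp s - 1) * (X.card * Y.card * p)) := by
    intro s
    have h := mgf h0 h1 U (X ×ˢ Y) (fun e => {s(e.1, e.2)}) 1 (by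
      intro e he
      rw [Finset.singleton_subset_iff]
      rw [Finset.mem_product] at he
      exact PP_sub.mp hU e.1 he.1 e.2 he.2) (by
      intro e he e' he' hne
      rw [Finset.disjoint_singleton]
      intro h
      exact hne (PP_inj hd he he' h)) (by
      intro e _
      exact Finset.card_singleton _) s
    rw [Finset.card_product, pow_one] at h
    push_cast at h
    refine le_trans (le_of_eq ?_) h
    apply Ex_congr
    intro E _
    have : eXY E X Y = ((X ×ˢ Y).filter (fun e => ({s(e.1, e.2)} : Finset (Sym2 ℕ)) ⊆ E)).card := by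
      unfold eXY
      congr 1
      ext e
      simp only [Finset.mem_filter, Finset.singleton_subset_iff]
    rw [this]
    congr!
  set xy : ℝ := X.card * Y.card with hxy
  have hxy0 : 0 ≤ xy := by positivity
  refine (chernoff h0 h1 U (fun E => (eXY E X Y : ℝ)) (-(1 / 4)) ((1 / 2) * p * xy) _ ?_).trans ?_
  · intro E _ hE
    have : (eXY E X Y : ℝ) ≤ (1 / 2) * p * xy := by
      rw [hxy]
      linarith
    exact mul_le_mul_of_nonpos_left this (by norm_num)
  · have hm' := hm (-(1 / 4))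
    calc Real.exp (-(-(1 / 4) * ((1 / 2) * p * xy))) *
        Ex p U (fun E => Real.exp (-(1 / 4) * (eXY E X Y : ℝ)))
        ≤ Real.exp (-(-(1 / 4) * ((1 / 2) * p * xy))) *
          Real.exp ((Real.exp (-(1 / 4)) - 1) * (X.card * Y.card * p)) :=
          mul_le_mul_of_nonneg_left hm' (Real.exp_pos _).le
      _ = Real.exp (-(-(1 / 4) * ((1 / 2) * p * xy)) +
          (Real.exp (-(1 / 4)) - 1) * (X.card * Y.card * p)) := by rw [Real.exp_add]
      _ ≤ Real.exp (-(p * X.card * Y.card / 16)) := by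
        apply Real.exp_le_exp.mpr
        have a1 : Real.exp (-(1 / 4 : ℝ)) - 1 ≤ -(1 / 4) + (-(1 / 4)) ^ 2 :=
          exp_bd (by rw [abs_neg, abs_of_pos (by norm_num)]; norm_num)
        have a2 : (Real.exp (-(1 / 4 : ℝ)) - 1) * (xy * p) ≤
            (-(1 / 4) + (-(1 / 4)) ^ 2) * (xy * p) :=
          mul_le_mul_of_nonneg_right a1 (by positivity)
        have e1 : p * X.card * Y.card = xy * p := by rw [hxy]; ring
        rw [e1, ← hxy]
        linarith

lemma joint {p : ℝ} (h0 : 0 ≤ p) (h1 : p ≤ 1) {U : Finset (Sym2 ℕ)} {M F X Y : Finset ℕ}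
    (hd : Disjoint X Y) (hXF : Disjoint F (X ∪ Y)) (hU1 : PP F (X ∪ Y) ⊆ U) (hU2 : PP X Y ⊆ U) :
    Pr p U (fun E => X ⊆ cnb E M F ∧ Y ⊆ cnb E M F ∧
      (eXY E X Y : ℝ) < (1 / 2) * p * X.card * Y.card) ≤
      p ^ (F.card * (X.card + Y.card)) * Real.exp (-(p * X.card * Y.card / 16)) := by
  have hdis : Disjoint (PP F (X ∪ Y)) (PP X Y) := by
    rw [Finset.disjoint_left]
    intro e he he'
    unfold PP at he he'
    rw [Finset.mem_image] at he he'
    obtain ⟨⟨f, z⟩, h2, rfl⟩ := he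
    obtain ⟨⟨x, y⟩, h3, h4⟩ := he'
    rw [Finset.mem_product] at h2 h3
    simp only at h2 h3 h4
    rcases Sym2.eq_iff.mp h4 with ⟨h5, _⟩ | ⟨_, h5⟩
    · exact Finset.disjoint_left.mp hXF h2.1 (h5 ▸ Finset.mem_union_left _ h3.1)
    · exact Finset.disjoint_left.mp hXF h2.1 (h5 ▸ Finset.mem_union_right _ h3.2)
  have he : ∀ E V : Finset (Sym2 ℕ), PP X Y ⊆ V → eXY E X Y = eXY (E ∩ V) X Y := by
    intro E V hV
    unfold eXY
    congr 1
    apply Finset.filter_congr
    intro e he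
    rw [Finset.mem_product] at he
    rw [Finset.mem_inter]
    have : s(e.1, e.2) ∈ V := hV (mem_PP he.1 he.2)
    tauto
  have hs : ∀ E V : Finset (Sym2 ℕ), PP F (X ∪ Y) ⊆ V →
      (PP F (X ∪ Y) ⊆ E ↔ PP F (X ∪ Y) ⊆ E ∩ V) := by
    intro E V hV
    constructor
    · intro h
      exact Finset.subset_inter h hV
    · intro h
      exact h.trans Finset.inter_subset_left
  have st1 : Pr p U (fun E => X ⊆ cnb E M F ∧ Y ⊆ cnb E M F ∧
      (eXY E X Y : ℝ) < (1 / 2) * p * X.card * Y.card) ≤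
      Pr p U (fun E => PP F (X ∪ Y) ⊆ E ∧ (eXY E X Y : ℝ) < (1 / 2) * p * X.card * Y.card) := by
    apply Pr_mono h0 h1
    rintro E _ ⟨a1, a2, a3⟩
    refine ⟨?_, a3⟩
    rw [PP_sub]
    intro f hf z hz
    rcases Finset.mem_union.mp hz with hz | hz
    · exact (mem_cnb.mp (a1 hz)).2.2 f hf
    · exact (mem_cnb.mp (a2 hz)).2.2 f hf
  have st2 : Pr p U (fun E => PP F (X ∪ Y) ⊆ E ∧
      (eXY E X Y : ℝ) < (1 / 2) * p * X.card * Y.card) =
      Pr p (PP F (X ∪ Y) ∪ PP X Y) (fun E => PP F (X ∪ Y) ⊆ E ∧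
      (eXY E X Y : ℝ) < (1 / 2) * p * X.card * Y.card) := by
    apply Pr_restrict p U _ (Finset.union_subset hU1 hU2)
    intro E
    rw [← hs E _ Finset.subset_union_left, ← he E _ Finset.subset_union_right]
  refine st1.trans ?_
  rw [st2, Pr_and_indep p _ _ hdis _ _ (fun E => hs E _ (Finset.Subset.refl _))
    (fun E => by rw [← he E _ (Finset.Subset.refl _)]), Pr_superset p _ _ (Finset.Subset.refl _),
    PP_card hXF, Finset.card_union_of_disjoint hd]
  exact mul_le_mul_of_nonneg_left (tail_exy h0 h1 hd (Finset.Subset.refl _)) (pow_nonneg h0 _)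

lemma sum_large (M : Finset ℕ) {q h : ℝ} (hq : 0 ≤ q) (hh : M.card * (q * Real.exp 2) ≤ h) :
    ∑ X ∈ M.powerset.filter (fun X => h ≤ (X.card : ℝ)), q ^ X.card ≤ Real.exp (-h) := by
  have h1 : ∑ X ∈ M.powerset.filter (fun X => h ≤ (X.card : ℝ)), q ^ X.card ≤
      ∑ X ∈ M.powerset, Real.exp (-(2 * h)) * (q * Real.exp 2) ^ X.card := by
    rw [Finset.sum_filter]
    apply Finset.sum_le_sum
    intro X _
    split_ifs with hX
    · have e1 : Real.exp (-(2 * h)) * (q * Real.exp 2) ^ X.card =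
          q ^ X.card * Real.exp (2 * (X.card - h)) := by
        rw [mul_pow, ← Real.exp_nat_mul]
        have : Real.exp (2 * (X.card - h)) = Real.exp (-(2 * h)) * Real.exp (X.card * 2) := by
          rw [← Real.exp_add]
          congr 1
          ring
        rw [this]
        ring
      rw [e1]
      have e2 : 1 ≤ Real.exp (2 * (X.card - h)) := Real.one_le_exp (by linarith)
      exact le_mul_of_one_le_right (pow_nonneg hq _) e2
    · positivity
  refine h1.trans ?_
  rw [← Finset.mul_sum]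
  have e3 : ∑ X ∈ M.powerset, (q * Real.exp 2) ^ X.card = (q * Real.exp 2 + 1) ^ M.card := by
    have := Finset.sum_pow_mul_eq_add_pow (q * Real.exp 2) 1 M
    simpa using this
  rw [e3]
  have e4 : (q * Real.exp 2 + 1) ^ M.card ≤ Real.exp h := by
    calc (q * Real.exp 2 + 1) ^ M.card ≤ (Real.exp (q * Real.exp 2)) ^ M.card :=
          pow_le_pow_left₀ (by positivity) (Real.add_one_le_exp _) _
      _ = Real.exp (M.card * (q * Real.exp 2)) := by rw [← Real.exp_nat_mul]
      _ ≤ Real.exp h := Real.exp_le_exp.mpr hh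
  calc Real.exp (-(2 * h)) * (q * Real.exp 2 + 1) ^ M.card ≤ Real.exp (-(2 * h)) * Real.exp h :=
        mul_le_mul_of_nonneg_left e4 (Real.exp_pos _).le
    _ = Real.exp (-h) := by
      rw [← Real.exp_add]
      congr 1
      ring

lemma oneF {D k : ℕ} {η A0 p : ℝ} (hk1 : 1 ≤ k) (hkD : k ≤ D) (hη : 0 < η)
    (hA0 : A0 = 32 / η * (2 + 1 / η)) (hp : 0 < p) (hp1 : p ≤ 1) {M V F : Finset ℕ}
    {U : Finset (Sym2 ℕ)} (hM : A0 * (1 / p) ^ (D + 1) ≤ (M.card : ℝ)) (hFV : F ⊆ V)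
    (hF : F.card = k) (hU : ∀ x ∈ V, ∀ z ∈ M, x ≠ z → s(x, z) ∈ U)
    (hU' : ∀ x ∈ M, ∀ z ∈ M, x ≠ z → s(x, z) ∈ U) :
    Pr p U (fun E => ∃ X ∈ M.powerset.filter (fun X => η * M.card * p ^ k ≤ (X.card : ℝ)),
      ∃ Y ∈ M.powerset.filter (fun X => η * M.card * p ^ k ≤ (X.card : ℝ)),
      Disjoint X Y ∧ X ⊆ cnb E M F ∧ Y ⊆ cnb E M F ∧
      (eXY E X Y : ℝ) < (1 / 2) * p * X.card * Y.card) ≤
      Real.exp (-(η * A0 * (1 / p))) := by
  set h := η * M.card * p ^ k with hh
  set S := M.powerset.filter (fun X => h ≤ (X.card : ℝ)) with hS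
  set q := p ^ k * Real.exp (-(η * A0 / 32)) with hq
  have hA0' : 0 < A0 := by rw [hA0]; positivity
  have hpk : 0 < p ^ k := pow_pos hp k
  have hq0 : 0 ≤ q := by positivity
  have hh0 : 0 ≤ h := by positivity
  -- lower bounds of `h`
  have hpD : ∀ j : ℕ, j ≤ D + 1 → A0 * (1 / p) ^ (D + 1 - j) ≤ (M.card : ℝ) * p ^ j := by
    intro j hj
    have h1 := mul_le_mul_of_nonneg_right hM (pow_pos hp j).le
    have h2 : A0 * (1 / p) ^ (D + 1) * p ^ j = A0 * (1 / p) ^ (D + 1 - j) := by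
      have e : D + 1 = (D + 1 - j) + j := by omega
      conv_lhs => rw [e, pow_add]
      have e2 : (1 / p) ^ j * p ^ j = 1 := by
        rw [← mul_pow, one_div_mul_cancel hp.ne', one_pow]
      rw [mul_assoc, mul_assoc, e2, mul_one]
    linarith
  have h1p : 1 ≤ 1 / p := by rw [le_div_iff₀ hp]; linarith
  have hph : η * A0 ≤ p * h := by
    have h1 := hpD (k + 1) (by omega)
    have h2 : A0 * 1 ≤ A0 * (1 / p) ^ (D + 1 - (k + 1)) :=
      mul_le_mul_of_nonneg_left (one_le_pow₀ h1p) hA0'.le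
    have h3 : p * h = η * (M.card * p ^ (k + 1)) := by rw [hh, pow_succ]; ring
    rw [h3]
    apply mul_le_mul_of_nonneg_left _ hη.le
    linarith
  have hh1 : η * A0 * (1 / p) ≤ h := by
    have h1 := hpD k (by omega)
    have h2 : A0 * (1 / p) ≤ A0 * (1 / p) ^ (D + 1 - k) := by
      apply mul_le_mul_of_nonneg_left _ hA0'.le
      calc 1 / p = (1 / p) ^ 1 := (pow_one _).symm
        _ ≤ (1 / p) ^ (D + 1 - k) := pow_le_pow_right₀ h1p (by omega)
    have h3 : h = η * (M.card * p ^ k) := by rw [hh]; ring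
    rw [h3, mul_assoc]
    apply mul_le_mul_of_nonneg_left _ hη.le
    linarith
  have hqe : M.card * (q * Real.exp 2) ≤ h := by
    have e1 : η * A0 / 32 = 2 + 1 / η := by
      rw [hA0]
      field_simp
    have e2 : q * Real.exp 2 = p ^ k * Real.exp (-(1 / η)) := by
      rw [hq, e1, mul_assoc, ← Real.exp_add]
      congr 2
      ring
    have e3 : Real.exp (-(1 / η)) ≤ η := by
      rw [Real.exp_neg, inv_le_comm₀ (Real.exp_pos _) hη]
      have := Real.add_one_le_exp (1 / η)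
      rw [one_div] at this ⊢
      linarith
    rw [e2, hh]
    have e4 : (M.card : ℝ) * (p ^ k * Real.exp (-(1 / η))) = (M.card * p ^ k) * Real.exp (-(1 / η)) := by
      ring
    have e5 : η * M.card * p ^ k = (M.card * p ^ k) * η := by ring
    rw [e4, e5]
    exact mul_le_mul_of_nonneg_left e3 (by positivity)
  have hsum := sum_large M hq0 hqe
  refine (Pr_exists_le hp.le hp1 _ _).trans ?_
  have step : ∀ X ∈ S, Pr p U (fun E => ∃ Y ∈ S, Disjoint X Y ∧ X ⊆ cnb E M F ∧ Y ⊆ cnb E M F ∧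
      (eXY E X Y : ℝ) < (1 / 2) * p * X.card * Y.card) ≤ ∑ Y ∈ S, q ^ X.card * q ^ Y.card := by
    intro X hX
    refine (Pr_exists_le hp.le hp1 _ _).trans ?_
    apply Finset.sum_le_sum
    intro Y hY
    rw [hS, Finset.mem_filter, Finset.mem_powerset] at hX hY
    by_cases hd : Disjoint X Y
    swap
    · have : Pr p U (fun E => Disjoint X Y ∧ X ⊆ cnb E M F ∧ Y ⊆ cnb E M F ∧
          (eXY E X Y : ℝ) < (1 / 2) * p * X.card * Y.card) = 0 := by
        unfold Pr
        refine (Ex_congr (g := fun _ => (0 : ℝ)) ?_).trans (Ex_const p U 0)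
        intro E _
        rw [if_neg]
        exact fun h => hd h.1
      rw [this]
      positivity
    by_cases hFd : Disjoint F (X ∪ Y)
    swap
    · have : Pr p U (fun E => Disjoint X Y ∧ X ⊆ cnb E M F ∧ Y ⊆ cnb E M F ∧
          (eXY E X Y : ℝ) < (1 / 2) * p * X.card * Y.card) = 0 := by
        unfold Pr
        refine (Ex_congr (g := fun _ => (0 : ℝ)) ?_).trans (Ex_const p U 0)
        intro E _
        rw [if_neg]
        rintro ⟨_, g1, g2, _⟩
        apply hFd
        rw [Finset.disjoint_left]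
        intro f hf hf'
        rcases Finset.mem_union.mp hf' with hf' | hf'
        · exact (mem_cnb.mp (g1 hf')).2.1 hf
        · exact (mem_cnb.mp (g2 hf')).2.1 hf
      rw [this]
      positivity
    have hU1 : PP F (X ∪ Y) ⊆ U := by
      rw [PP_sub]
      intro f hf z hz
      have hzM : z ∈ M := by
        rcases Finset.mem_union.mp hz with hz | hz
        · exact hX.1 hz
        · exact hY.1 hz
      exact hU f (hFV hf) z hzM (fun h => Finset.disjoint_left.mp hFd hf (h ▸ hz))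
    have hU2 : PP X Y ⊆ U := by
      rw [PP_sub]
      intro x hx y hy
      exact hU' x (hX.1 hx) y (hY.1 hy) (fun h => Finset.disjoint_left.mp hd hx (h ▸ hy))
    refine (Pr_mono hp.le hp1 (fun E _ hE => hE.2)).trans ((joint hp.le hp1 hd hFd hU1 hU2).trans ?_)
    rw [hF]
    have hx := hX.2
    have hy := hY.2
    set x : ℝ := (X.card : ℝ) with hxd
    set y : ℝ := (Y.card : ℝ) with hyd
    have hx0 : 0 ≤ x := by positivity
    have hy0 : 0 ≤ y := by positivity
    have key : η * A0 / 32 * (x + y) ≤ p * x * y / 16 := by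
      have k1 : h * (x + y) ≤ 2 * (x * y) := by
        have a1 : h * y ≤ x * y := mul_le_mul_of_nonneg_right hx hy0
        have a2 : h * x ≤ y * x := mul_le_mul_of_nonneg_right hy hx0
        linarith
      have k2 : (p * h) * (x + y) ≤ p * (2 * (x * y)) := by
        have := mul_le_mul_of_nonneg_left k1 hp.le
        linarith
      have k3 : η * A0 * (x + y) ≤ (p * h) * (x + y) :=
        mul_le_mul_of_nonneg_right hph (by positivity)
      linarith
    have e1 : p ^ (k * (X.card + Y.card)) = (p ^ k) ^ X.card * (p ^ k) ^ Y.card := by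
      rw [← pow_add, ← pow_mul]
    have e2 : Real.exp (-(p * x * y / 16)) ≤
        Real.exp (-(η * A0 / 32)) ^ X.card * Real.exp (-(η * A0 / 32)) ^ Y.card := by
      rw [← pow_add, ← Real.exp_nat_mul]
      apply Real.exp_le_exp.mpr
      push_cast
      rw [← hxd, ← hyd]
      linarith
    rw [e1]
    calc (p ^ k) ^ X.card * (p ^ k) ^ Y.card * Real.exp (-(p * x * y / 16))
        ≤ (p ^ k) ^ X.card * (p ^ k) ^ Y.card *
          (Real.exp (-(η * A0 / 32)) ^ X.card * Real.exp (-(η * A0 / 32)) ^ Y.card) :=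
          mul_le_mul_of_nonneg_left e2 (by positivity)
      _ = q ^ X.card * q ^ Y.card := by
          rw [hq, mul_pow, mul_pow]
          ring
  refine (Finset.sum_le_sum step).trans ?_
  have e6 : ∑ X ∈ S, ∑ Y ∈ S, q ^ X.card * q ^ Y.card =
      (∑ X ∈ S, q ^ X.card) * ∑ Y ∈ S, q ^ Y.card := by
    rw [Finset.sum_mul_sum]
  rw [e6]
  have e7 : 0 ≤ ∑ X ∈ S, q ^ X.card := Finset.sum_nonneg (fun X _ => pow_nonneg hq0 _)
  calc (∑ X ∈ S, q ^ X.card) * ∑ Y ∈ S, q ^ Y.card ≤ Real.exp (-h) * Real.exp (-h) :=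
        mul_le_mul hsum hsum e7 (Real.exp_pos _).le
    _ ≤ Real.exp (-h) * 1 := by
        apply mul_le_mul_of_nonneg_left _ (Real.exp_pos _).le
        rw [Real.exp_le_one_iff]
        linarith
    _ = Real.exp (-h) := mul_one _
    _ ≤ Real.exp (-(η * A0 * (1 / p))) := Real.exp_le_exp.mpr (by linarith)

theorem main : S_quasi := by
  intro D η hD hη
  refine ⟨32 / η * (2 + 1 / η), by positivity, ?_⟩
  intro K
  set A0 := 32 / η * (2 + 1 / η) with hA0
  obtain ⟨p1, hp1, hsm⟩ := small_p ((2 * D + 5) * D + K) D (η * A0) (by positivity)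
  refine ⟨min p1 1, by positivity, ?_⟩
  intro p hp hpp M V U hM _ hV hU hU'
  have hpa : p < p1 := lt_of_lt_of_le hpp (min_le_left _ _)
  have hpb : p < 1 := lt_of_lt_of_le hpp (min_le_right _ _)
  have h1p : 1 ≤ 1 / p := by rw [le_div_iff₀ hp]; linarith
  have step1 : Pr p U (fun E => ¬ QuasiOK D η p E M V) ≤
      Pr p U (fun E => ∃ k ∈ Finset.Icc 1 D, ∃ F ∈ Finset.powersetCard k V,
        ∃ X ∈ M.powerset.filter (fun X => η * M.card * p ^ k ≤ (X.card : ℝ)),
        ∃ Y ∈ M.powerset.filter (fun X => η * M.card * p ^ k ≤ (X.card : ℝ)),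
        Disjoint X Y ∧ X ⊆ cnb E M F ∧ Y ⊆ cnb E M F ∧
        (eXY E X Y : ℝ) < (1 / 2) * p * X.card * Y.card) := by
    apply Pr_mono hp.le hpb.le
    intro E _ hE
    unfold QuasiOK at hE
    push Not at hE
    obtain ⟨F, hFV, hF1, hFD, X, Y, hX, hY, hd, hx, hy, hlt⟩ := hE
    refine ⟨F.card, Finset.mem_Icc.mpr ⟨hF1, hFD⟩, F, Finset.mem_powersetCard.mpr ⟨hFV, rfl⟩,
      X, Finset.mem_filter.mpr ⟨Finset.mem_powerset.mpr (hX.trans cnb_sub), hx⟩,
      Y, Finset.mem_filter.mpr ⟨Finset.mem_powerset.mpr (hY.trans cnb_sub), hy⟩, hd, hX, hY, hlt⟩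
  refine step1.trans ?_
  refine (Pr_exists_le hp.le hpb.le _ _).trans ?_
  have step2 : ∀ k ∈ Finset.Icc 1 D, Pr p U (fun E => ∃ F ∈ Finset.powersetCard k V,
        ∃ X ∈ M.powerset.filter (fun X => η * M.card * p ^ k ≤ (X.card : ℝ)),
        ∃ Y ∈ M.powerset.filter (fun X => η * M.card * p ^ k ≤ (X.card : ℝ)),
        Disjoint X Y ∧ X ⊆ cnb E M F ∧ Y ⊆ cnb E M F ∧
        (eXY E X Y : ℝ) < (1 / 2) * p * X.card * Y.card) ≤
      ∑ _F ∈ Finset.powersetCard k V, Real.exp (-(η * A0 * (1 / p))) := by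
    intro k hk
    rw [Finset.mem_Icc] at hk
    refine (Pr_exists_le hp.le hpb.le _ _).trans ?_
    apply Finset.sum_le_sum
    intro F hF
    rw [Finset.mem_powersetCard] at hF
    exact oneF hk.1 hk.2 hη hA0 hp hpb.le hM hF.1 hF.2 hU hU'
  refine (Finset.sum_le_sum step2).trans ?_
  refine (sum_small_le (D := D) (V := V) (b := (1 / p) ^ (2 * D + 5)) (one_le_pow₀ h1p) hV
    (Real.exp_pos _).le).trans ?_
  have h2 := hsm p hp hpa
  have hpK : 0 < p ^ K := pow_pos hp K
  calc (D : ℝ) * ((1 / p) ^ (2 * D + 5)) ^ D * Real.exp (-(η * A0 * (1 / p)))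
      = p ^ K * (D * (1 / p) ^ ((2 * D + 5) * D + K) * Real.exp (-(η * A0 * (1 / p)))) := by
        rw [pow_add (1 / p) ((2 * D + 5) * D) K, ← pow_mul]
        have : p ^ K * (1 / p) ^ K = 1 := by
          rw [← mul_pow, mul_one_div_cancel hp.ne', one_pow]
        linear_combination (-(D : ℝ) * (1 / p) ^ ((2 * D + 5) * D) *
          Real.exp (-(η * A0 * (1 / p)))) * this
    _ ≤ p ^ K * 1 := mul_le_mul_of_nonneg_left h2 hpK.le
    _ = p ^ K := mul_one _

end

end Pool.Agent.W505.Kd.Quasi
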