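import Pool.Agent.W505.Kd.Tools

/-! KD-SIZE: sizes of common neighbourhoods. -/

set_option autoImplicit false
open Classical

namespace Pool.Agent.W505.Kd.Size

open Pool.Agent.H362C Pool.Agent.W827.Kd Pool.Agent.W505.Kd

noncomputable section

lemma exp_bd {x : ℝ} (hx : |x| ≤ 1) : Real.exp x - 1 ≤ x + x ^ 2 := by
  have := (abs_le.mp (Real.abs_exp_sub_one_sub_id_le hx)).2
  linarith

lemma tails {D k : ℕ} {t p : ℝ} (hk1 : 1 ≤ k) (hkD : k ≤ D) (ht0 : 0 < t) (ht1 : t ≤ 1 / 2)
    (hp : 0 < p) (hp1 : p ≤ 1) (hpD : 4 * D / t ≤ 1 / p) {M V F : Finset ℕ}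
    {U : Finset (Sym2 ℕ)} (hM : (1 / p) ^ (D + 1) ≤ (M.card : ℝ)) (hFV : F ⊆ V)
    (hF : F.card = k) (hU : ∀ x ∈ V, ∀ z ∈ M, x ≠ z → s(x, z) ∈ U) :
    Pr p U (fun E => ((cnb E M F).card : ℝ) < (1 - t) * M.card * p ^ k ∨
      (1 + t) * M.card * p ^ k < ((cnb E M F).card : ℝ)) ≤
      2 * Real.exp (-(t ^ 2 / 8 * (1 / p))) := by
  set Z := M \ F with hZ
  have hmgf : ∀ s : ℝ, Ex p U (fun E => Real.exp (s * ((cnb E M F).card : ℝ))) ≤
      Real.exp ((Real.exp s - 1) * (Z.card * p ^ k)) := by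
    intro s
    have := mgf_cnb hp.le hp1 U M F (fun x hx z hz hne => hU x (hFV hx) z hz hne) s
    rw [hF] at this
    exact this
  have h1p : 1 ≤ 1 / p := by rw [le_div_iff₀ hp]; linarith
  have hpk : 0 < p ^ k := pow_pos hp k
  have hM0 : 1 / p ≤ (M.card : ℝ) * p ^ k := by
    have h1 : (1 / p) ^ (D + 1) * p ^ k ≤ (M.card : ℝ) * p ^ k :=
      mul_le_mul_of_nonneg_right hM hpk.le
    have h2 : (1 / p) ^ (D + 1) * p ^ k = (1 / p) ^ (D + 1 - k) := by
      have : D + 1 = (D + 1 - k) + k := by omega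
      rw [this, pow_add]
      simp only [Nat.add_sub_cancel]
      rw [mul_assoc, ← mul_pow, one_div_mul_cancel hp.ne', one_pow, mul_one]
    have h3 : 1 / p ≤ (1 / p) ^ (D + 1 - k) := by
      calc 1 / p = (1 / p) ^ 1 := (pow_one _).symm
        _ ≤ (1 / p) ^ (D + 1 - k) := pow_le_pow_right₀ h1p (by omega)
    linarith
  have hM1 : 1 / p ≤ (M.card : ℝ) := by
    calc 1 / p = (1 / p) ^ 1 := (pow_one _).symm
      _ ≤ (1 / p) ^ (D + 1) := pow_le_pow_right₀ h1p (by omega)
      _ ≤ _ := hM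
  have hZ1 : (Z.card : ℝ) ≤ M.card := by
    exact_mod_cast Finset.card_le_card (Finset.sdiff_subset)
  have hZ2 : (1 - t / 4) * M.card ≤ (Z.card : ℝ) := by
    have h1 : M.card ≤ Z.card + F.card := by
      rw [hZ]
      exact Finset.card_le_card_sdiff_add_card
    have h2 : (M.card : ℝ) ≤ Z.card + k := by
      rw [hF] at h1
      exact_mod_cast h1
    have h3 : (k : ℝ) ≤ D := by exact_mod_cast hkD
    have h4 : (D : ℝ) ≤ t / 4 * M.card := by
      have h5 : 4 * D / t ≤ (M.card : ℝ) := hpD.trans hM1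
      rw [div_le_iff₀ ht0] at h5
      linarith
    linarith
  set μM := (M.card : ℝ) * p ^ k with hμM
  have hμ0 : 0 < μM := lt_of_lt_of_le (by positivity) hM0
  have hmu1 : (Z.card : ℝ) * p ^ k ≤ μM := mul_le_mul_of_nonneg_right hZ1 hpk.le
  have hmu2 : (1 - t / 4) * μM ≤ (Z.card : ℝ) * p ^ k := by
    have := mul_le_mul_of_nonneg_right hZ2 hpk.le
    rw [hμM]
    linarith
  have hfin : -(t ^ 2 / 8 * μM) ≤ -(t ^ 2 / 8 * (1 / p)) := by
    have := mul_le_mul_of_nonneg_left hM0 (by positivity : 0 ≤ t ^ 2 / 8)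
    linarith
  refine (Pr_or_le hp.le hp1 _ _).trans ?_
  have lower : Pr p U (fun E => ((cnb E M F).card : ℝ) < (1 - t) * M.card * p ^ k) ≤
      Real.exp (-(t ^ 2 / 8 * (1 / p))) := by
    refine (chernoff hp.le hp1 U (fun E => ((cnb E M F).card : ℝ))
      (-(t / 4)) ((1 - t) * μM) _ ?_).trans ?_
    · intro E _ hE
      have : ((cnb E M F).card : ℝ) ≤ (1 - t) * μM := by
        rw [hμM, ← mul_assoc]
        exact hE.le
      exact mul_le_mul_of_nonpos_left this (by linarith)
    · have hm := hmgf (-(t / 4))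
      calc Real.exp (-(-(t / 4) * ((1 - t) * μM))) *
          Ex p U (fun E => Real.exp (-(t / 4) * ((cnb E M F).card : ℝ)))
          ≤ Real.exp (-(-(t / 4) * ((1 - t) * μM))) *
            Real.exp ((Real.exp (-(t / 4)) - 1) * (Z.card * p ^ k)) :=
            mul_le_mul_of_nonneg_left hm (Real.exp_pos _).le
        _ = Real.exp (-(-(t / 4) * ((1 - t) * μM)) +
            (Real.exp (-(t / 4)) - 1) * (Z.card * p ^ k)) := by rw [Real.exp_add]
        _ ≤ Real.exp (-(t ^ 2 / 8 * (1 / p))) := by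
          apply Real.exp_le_exp.mpr
          refine le_trans ?_ hfin
          have a1 : Real.exp (-(t / 4)) - 1 ≤ -(t / 4) + (-(t / 4)) ^ 2 :=
            exp_bd (by rw [abs_neg, abs_of_pos (by positivity)]; linarith)
          have a2 : (Real.exp (-(t / 4)) - 1) * (Z.card * p ^ k) ≤
              (-(t / 4) + (-(t / 4)) ^ 2) * (Z.card * p ^ k) :=
            mul_le_mul_of_nonneg_right a1 (by positivity)
          have hneg : -(t / 4) + (-(t / 4)) ^ 2 ≤ 0 := by
            have e1 : -(t / 4) + (-(t / 4)) ^ 2 = -(t / 4 * (1 - t / 4)) := by ring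
            rw [e1, neg_nonpos]
            exact mul_nonneg (by positivity) (by linarith)
          have a3 : (-(t / 4) + (-(t / 4)) ^ 2) * (Z.card * p ^ k) ≤
              (-(t / 4) + (-(t / 4)) ^ 2) * ((1 - t / 4) * μM) :=
            mul_le_mul_of_nonpos_left hmu2 hneg
          have a4 : 0 ≤ t ^ 3 * μM := by positivity
          have e2 : -(-(t / 4) * ((1 - t) * μM)) +
              (-(t / 4) + (-(t / 4)) ^ 2) * ((1 - t / 4) * μM) =
              -(t ^ 2 / 8 * μM) - 1 / 64 * (t ^ 3 * μM) := by ring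
          linarith
  have upper : Pr p U (fun E => (1 + t) * M.card * p ^ k < ((cnb E M F).card : ℝ)) ≤
      Real.exp (-(t ^ 2 / 8 * (1 / p))) := by
    refine (chernoff hp.le hp1 U (fun E => ((cnb E M F).card : ℝ))
      (t / 2) ((1 + t) * μM) _ ?_).trans ?_
    · intro E _ hE
      have : (1 + t) * μM ≤ ((cnb E M F).card : ℝ) := by
        rw [hμM, ← mul_assoc]
        exact hE.le
      exact mul_le_mul_of_nonneg_left this (by positivity)
    · have hm := hmgf (t / 2)
      calc Real.exp (-((t / 2) * ((1 + t) * μM))) *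
          Ex p U (fun E => Real.exp ((t / 2) * ((cnb E M F).card : ℝ)))
          ≤ Real.exp (-((t / 2) * ((1 + t) * μM))) *
            Real.exp ((Real.exp (t / 2) - 1) * (Z.card * p ^ k)) :=
            mul_le_mul_of_nonneg_left hm (Real.exp_pos _).le
        _ = Real.exp (-((t / 2) * ((1 + t) * μM)) +
            (Real.exp (t / 2) - 1) * (Z.card * p ^ k)) := by rw [Real.exp_add]
        _ ≤ Real.exp (-(t ^ 2 / 8 * (1 / p))) := by
          apply Real.exp_le_exp.mpr
          refine le_trans ?_ hfin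
          have a1 : Real.exp (t / 2) - 1 ≤ t / 2 + (t / 2) ^ 2 :=
            exp_bd (by rw [abs_of_pos (by positivity)]; linarith)
          have a0 : 0 ≤ Real.exp (t / 2) - 1 := by
            have := Real.one_le_exp (show 0 ≤ t / 2 by positivity)
            linarith
          have a2 : (Real.exp (t / 2) - 1) * (Z.card * p ^ k) ≤
              (t / 2 + (t / 2) ^ 2) * μM :=
            mul_le_mul a1 hmu1 (by positivity) (by positivity)
          have a4 : 0 ≤ t ^ 2 * μM := by positivity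
          have e2 : -((t / 2) * ((1 + t) * μM)) + (t / 2 + (t / 2) ^ 2) * μM =
              -(t ^ 2 / 8 * μM) - 1 / 8 * (t ^ 2 * μM) := by ring
          linarith
  linarith

theorem main : S_size := by
  intro D K η hD hη
  set t := min η (1 / 2) with ht
  have ht0 : 0 < t := lt_min hη (by norm_num)
  have ht1 : t ≤ 1 / 2 := min_le_right _ _
  have htη : t ≤ η := min_le_left _ _
  have hD0 : (0:ℝ) < D := by exact_mod_cast hD
  obtain ⟨p1, hp1, hsm⟩ := small_p ((2 * D + 5) * D + K) (D * 2) (t ^ 2 / 8) (by positivity)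
  refine ⟨min p1 (min 1 (t / (4 * D))), by positivity, ?_⟩
  intro p hp hpp M V U hM hV hU
  have hpa : p < p1 := lt_of_lt_of_le hpp (min_le_left _ _)
  have hpb : p < 1 := lt_of_lt_of_le hpp ((min_le_right _ _).trans (min_le_left _ _))
  have hpc : p < t / (4 * D) := lt_of_lt_of_le hpp ((min_le_right _ _).trans (min_le_right _ _))
  have hpD : 4 * D / t ≤ 1 / p := by
    rw [lt_div_iff₀ (by positivity)] at hpc
    rw [div_le_div_iff₀ ht0 hp]
    linarith
  have h1p : 1 ≤ 1 / p := by rw [le_div_iff₀ hp]; linarith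
  have step1 : Pr p U (fun E => ¬ SizeOK D η p E M V) ≤
      Pr p U (fun E => ∃ k ∈ Finset.Icc 1 D, ∃ F ∈ Finset.powersetCard k V,
        (((cnb E M F).card : ℝ) < (1 - t) * M.card * p ^ k ∨
        (1 + t) * M.card * p ^ k < ((cnb E M F).card : ℝ))) := by
    apply Pr_mono hp.le hpb.le
    intro E _ hE
    unfold SizeOK at hE
    push Not at hE
    obtain ⟨F, hFV, hF1, hFD, hF⟩ := hE
    refine ⟨F.card, Finset.mem_Icc.mpr ⟨hF1, hFD⟩, F, Finset.mem_powersetCard.mpr ⟨hFV, rfl⟩, ?_⟩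
    by_contra hcon
    rw [not_or, not_lt, not_lt] at hcon
    have hmp : 0 ≤ (M.card : ℝ) * p ^ F.card := by positivity
    have h1 : (1 - η) * M.card * p ^ F.card ≤ ((cnb E M F).card : ℝ) := by
      refine le_trans ?_ hcon.1
      nlinarith
    have h2 : ((cnb E M F).card : ℝ) ≤ (1 + η) * M.card * p ^ F.card := by
      refine le_trans hcon.2 ?_
      nlinarith
    have := hF h1
    linarith
  refine step1.trans ?_
  refine (Pr_exists_le hp.le hpb.le _ _).trans ?_
  have step2 : ∀ k ∈ Finset.Icc 1 D, Pr p U (fun E => ∃ F ∈ Finset.powersetCard k V,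
        (((cnb E M F).card : ℝ) < (1 - t) * M.card * p ^ k ∨
        (1 + t) * M.card * p ^ k < ((cnb E M F).card : ℝ))) ≤
      ∑ _F ∈ Finset.powersetCard k V, 2 * Real.exp (-(t ^ 2 / 8 * (1 / p))) := by
    intro k hk
    rw [Finset.mem_Icc] at hk
    refine (Pr_exists_le hp.le hpb.le _ _).trans ?_
    apply Finset.sum_le_sum
    intro F hF
    rw [Finset.mem_powersetCard] at hF
    exact tails hk.1 hk.2 ht0 ht1 hp hpb.le hpD hM hF.1 hF.2 hU
  refine (Finset.sum_le_sum step2).trans ?_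
  refine (sum_small_le (D := D) (V := V) (b := (1 / p) ^ (2 * D + 5)) (one_le_pow₀ h1p) hV
    (by positivity)).trans ?_
  have h2 := hsm p hp hpa
  have hpK : 0 < p ^ K := pow_pos hp K
  calc (D : ℝ) * ((1 / p) ^ (2 * D + 5)) ^ D * (2 * Real.exp (-(t ^ 2 / 8 * (1 / p))))
      = p ^ K * (D * 2 * (1 / p) ^ ((2 * D + 5) * D + K) * Real.exp (-(t ^ 2 / 8 * (1 / p)))) := by
        rw [pow_add (1 / p) ((2 * D + 5) * D) K, ← pow_mul]
        have : p ^ K * (1 / p) ^ K = 1 := by
          rw [← mul_pow, mul_one_div_cancel hp.ne', one_pow]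
        linear_combination (-(D : ℝ) * 2 * (1 / p) ^ ((2 * D + 5) * D) *
          Real.exp (-(t ^ 2 / 8 * (1 / p)))) * this
    _ ≤ p ^ K * 1 := mul_le_mul_of_nonneg_left h2 hpK.le
    _ = p ^ K := mul_one _

end

end Pool.Agent.W505.Kd.Size
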