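import Pool.Agent.W827.Kd.Basic

/-! Tools: product formula over disjoint sets, exponential moments, numerical limits. -/

set_option autoImplicit false
open Classical

namespace Pool.Agent.W505.Kd

open Pool.Agent.H362C Pool.Agent.W827.Kd

noncomputable section

theorem Ex_mul_right' {α : Type*} {p : ℝ} {U : Finset α} (c : ℝ) (f : Finset α → ℝ) :
    Ex p U (fun E => f E * c) = Ex p U f * c := by
  have := Ex_mul_left (p := p) (U := U) c f
  rw [mul_comm (Ex p U f), ← this]
  apply Ex_congr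
  intro E _
  ring

/-- product formula for events on disjoint sets -/
theorem Ex_prod_sets {α ι : Type*} (p : ℝ) (Z : Finset ι) (A : ι → Finset α) (a b : ℝ) :
    ∀ U : Finset α, (∀ z ∈ Z, A z ⊆ U) →
      (∀ z ∈ Z, ∀ z' ∈ Z, z ≠ z' → Disjoint (A z) (A z')) →
      Ex p U (fun E => ∏ z ∈ Z, if A z ⊆ E then a else b) =
        ∏ z ∈ Z, (p ^ (A z).card * a + (1 - p ^ (A z).card) * b) := by
  induction Z using Finset.induction_on with
  | empty =>
    intro U _ _
    simp only [Finset.prod_empty]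
    exact Ex_const p U 1
  | insert z0 Z hz0 ih =>
    intro U hU hd
    have hU0 : A z0 ⊆ U := hU z0 (Finset.mem_insert_self _ _)
    have hsplit : U = A z0 ∪ (U \ A z0) := (Finset.union_sdiff_of_subset hU0).symm
    have hdis : Disjoint (A z0) (U \ A z0) := Finset.disjoint_sdiff
    have hd0 : ∀ z ∈ Z, Disjoint (A z) (A z0) := by
      intro z hz
      apply hd z (Finset.mem_insert_of_mem hz) z0 (Finset.mem_insert_self _ _)
      rintro rfl
      exact hz0 hz
    have hU' : ∀ z ∈ Z, A z ⊆ U \ A z0 := by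
      intro z hz e he
      rw [Finset.mem_sdiff]
      exact ⟨hU z (Finset.mem_insert_of_mem hz) he, Finset.disjoint_left.mp (hd0 z hz) he⟩
    rw [hsplit, Ex_union p _ _ hdis, Finset.prod_insert hz0,
      ← ih (U \ A z0) hU' (fun z hz z' hz' => hd z (Finset.mem_insert_of_mem hz) z'
        (Finset.mem_insert_of_mem hz'))]
    have key : ∀ E ⊆ A z0, Ex p (U \ A z0)
        (fun F => ∏ z ∈ insert z0 Z, if A z ⊆ E ∪ F then a else b) =
        (if A z0 ⊆ E then a else b) *
          Ex p (U \ A z0) (fun F => ∏ z ∈ Z, if A z ⊆ F then a else b) := by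
      intro E hE
      rw [← Ex_mul_left]
      apply Ex_congr
      intro F hF
      rw [Finset.prod_insert hz0]
      congr 1
      · have : A z0 ⊆ E ∪ F ↔ A z0 ⊆ E := by
          constructor
          · intro h e he
            rcases Finset.mem_union.mp (h he) with h1 | h1
            · exact h1
            · exact absurd he (Finset.mem_sdiff.mp (hF h1)).2
          · intro h e he
            exact Finset.mem_union_left _ (h he)
        by_cases h : A z0 ⊆ E
        · rw [if_pos h, if_pos (this.mpr h)]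
        · rw [if_neg h, if_neg (fun h' => h (this.mp h'))]
      · apply Finset.prod_congr rfl
        intro z hz
        have : A z ⊆ E ∪ F ↔ A z ⊆ F := by
          constructor
          · intro h e he
            rcases Finset.mem_union.mp (h he) with h1 | h1
            · exact absurd (hE h1) (Finset.disjoint_left.mp (hd0 z hz) he)
            · exact h1
          · intro h e he
            exact Finset.mem_union_right _ (h he)
        by_cases h : A z ⊆ F
        · rw [if_pos h, if_pos (this.mpr h)]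
        · rw [if_neg h, if_neg (fun h' => h (this.mp h'))]
    rw [Ex_congr key, Ex_mul_right']
    congr 1
    have h1 : Ex p (A z0) (fun E => if A z0 ⊆ E then a else b) =
        Ex p (A z0) (fun E => b + (a - b) * (if A z0 ⊆ E then 1 else 0)) := by
      apply Ex_congr
      intro E _
      by_cases h : A z0 ⊆ E
      · rw [if_pos h, if_pos h]; ring
      · rw [if_neg h, if_neg h]; ring
    rw [h1, Ex_add, Ex_const, Ex_mul_left]
    have h2 : Ex p (A z0) (fun E => if A z0 ⊆ E then (1:ℝ) else 0) = p ^ (A z0).card := by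
      rw [Ex_ite (fun E => A z0 ⊆ E)]
      exact Pr_superset p (A z0) (A z0) (Finset.Subset.refl _)
    rw [h2]
    ring

/-- exponential Chernoff bound, general -/
theorem chernoff {α : Type*} {p : ℝ} (h0 : 0 ≤ p) (h1 : p ≤ 1) (U : Finset α)
    (X : Finset α → ℝ) (s r : ℝ) (P : Finset α → Prop) (hP : ∀ E ⊆ U, P E → s * r ≤ s * X E) :
    Pr p U P ≤ Real.exp (-(s * r)) * Ex p U (fun E => Real.exp (s * X E)) := by
  rw [← Ex_mul_left]
  apply Ex_mono h0 h1
  intro E hE
  by_cases h : P E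
  · simp only [h, if_true]
    rw [← Real.exp_add]
    have := hP E hE h
    exact Real.one_le_exp (by linarith)
  · simp only [h, if_false]
    positivity

/-- moment generating function of the number of `z ∈ Z` with `A z ⊆ E` -/
theorem mgf {α ι : Type*} {p : ℝ} (h0 : 0 ≤ p) (h1 : p ≤ 1) (U : Finset α) (Z : Finset ι)
    (A : ι → Finset α) (k : ℕ) (hU : ∀ z ∈ Z, A z ⊆ U)
    (hd : ∀ z ∈ Z, ∀ z' ∈ Z, z ≠ z' → Disjoint (A z) (A z')) (hk : ∀ z ∈ Z, (A z).card = k)
    (s : ℝ) :
    Ex p U (fun E => Real.exp (s * ((Z.filter (fun z => A z ⊆ E)).card : ℝ))) ≤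
      Real.exp ((Real.exp s - 1) * (Z.card * p ^ k)) := by
  have e1 : Ex p U (fun E => Real.exp (s * ((Z.filter (fun z => A z ⊆ E)).card : ℝ))) =
      Ex p U (fun E => ∏ z ∈ Z, if A z ⊆ E then Real.exp s else 1) := by
    apply Ex_congr
    intro E _
    rw [Finset.prod_ite, Finset.prod_const, Finset.prod_const_one, mul_one, ← Real.exp_nat_mul]
    congr 1
    ring
  rw [e1, Ex_prod_sets p Z A _ _ U hU hd]
  have e2 : ∀ z ∈ Z, p ^ (A z).card * Real.exp s + (1 - p ^ (A z).card) * 1 =
      1 + (Real.exp s - 1) * p ^ k := by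
    intro z hz
    rw [hk z hz]
    ring
  rw [Finset.prod_congr rfl e2, Finset.prod_const]
  have e3 : 1 + (Real.exp s - 1) * p ^ k ≤ Real.exp ((Real.exp s - 1) * p ^ k) := by
    have := Real.add_one_le_exp ((Real.exp s - 1) * p ^ k)
    linarith
  have e4 : 0 ≤ 1 + (Real.exp s - 1) * p ^ k := by
    have a1 : 0 ≤ p ^ k := pow_nonneg h0 k
    have a2 : p ^ k ≤ 1 := pow_le_one₀ h0 h1
    have a3 := Real.exp_pos s
    nlinarith
  calc (1 + (Real.exp s - 1) * p ^ k) ^ Z.card
      ≤ (Real.exp ((Real.exp s - 1) * p ^ k)) ^ Z.card := pow_le_pow_left₀ e4 e3 _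
    _ = Real.exp ((Real.exp s - 1) * (Z.card * p ^ k)) := by
      rw [← Real.exp_nat_mul]
      congr 1
      ring

/-- exponentials beat powers -/
theorem small_p (m : ℕ) (C c : ℝ) (hc : 0 < c) : ∃ p0 : ℝ, 0 < p0 ∧ ∀ p : ℝ, 0 < p → p < p0 →
    C * (1 / p) ^ m * Real.exp (-(c * (1 / p))) ≤ 1 := by
  have h1 : Filter.Tendsto (fun x : ℝ => (c * x) ^ m * Real.exp (-(c * x))) Filter.atTop
      (nhds 0) :=
    (Real.tendsto_pow_mul_exp_neg_atTop_nhds_zero m).comp
      (Filter.Tendsto.const_mul_atTop hc Filter.tendsto_id)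
  have h2 := h1.eventually_lt_const (show (0:ℝ) < c ^ m / (|C| + 1) by positivity)
  obtain ⟨x0, hx0⟩ := Filter.eventually_atTop.mp h2
  refine ⟨1 / (max x0 1), by positivity, ?_⟩
  intro p hp hp0
  have h3 : x0 ≤ 1 / p := by
    have : max x0 1 < 1 / p := by
      rw [lt_div_iff₀ (by positivity)] at hp0
      rw [lt_div_iff₀ hp]
      linarith
    exact (le_max_left _ _).trans this.le
  have h4 := hx0 _ h3
  rw [lt_div_iff₀ (by positivity), mul_pow] at h4
  have h5 : (1 / p) ^ m * Real.exp (-(c * (1 / p))) * (|C| + 1) < 1 := by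
    have : c ^ m * (1 / p) ^ m * Real.exp (-(c * (1 / p))) * (|C| + 1) =
      c ^ m * ((1 / p) ^ m * Real.exp (-(c * (1 / p))) * (|C| + 1)) := by ring
    rw [this] at h4
    have hcm : 0 < c ^ m := by positivity
    exact lt_of_mul_lt_mul_left (by linarith) hcm.le
  have h6 : 0 ≤ (1 / p) ^ m * Real.exp (-(c * (1 / p))) := by positivity
  have h7 : C ≤ |C| + 1 := by linarith [le_abs_self C]
  calc C * (1 / p) ^ m * Real.exp (-(c * (1 / p))) =
      ((1 / p) ^ m * Real.exp (-(c * (1 / p)))) * C := by ring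
    _ ≤ ((1 / p) ^ m * Real.exp (-(c * (1 / p)))) * (|C| + 1) := mul_le_mul_of_nonneg_left h7 h6
    _ ≤ 1 := h5.le

/-- the star of `F` at `z` -/
def star (F : Finset ℕ) (z : ℕ) : Finset (Sym2 ℕ) := F.image (fun x => s(x, z))

theorem star_card {F : Finset ℕ} {z : ℕ} (_hz : z ∉ F) : (star F z).card = F.card := by
  unfold star
  apply Finset.card_image_of_injOn
  intro x hx x' hx' h
  simp only at h
  rcases Sym2.eq_iff.mp h with ⟨h1, _⟩ | ⟨h1, h2⟩
  · exact h1
  · exact h1.trans h2

theorem star_sub {F : Finset ℕ} {z : ℕ} {E : Finset (Sym2 ℕ)} :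
    star F z ⊆ E ↔ ∀ x ∈ F, s(x, z) ∈ E := by
  unfold star
  rw [Finset.image_subset_iff]

theorem star_disj {F : Finset ℕ} {z z' : ℕ} (_hz : z ∉ F) (hz' : z' ∉ F) (hne : z ≠ z') :
    Disjoint (star F z) (star F z') := by
  rw [Finset.disjoint_left]
  intro e he he'
  unfold star at he he'
  rw [Finset.mem_image] at he he'
  obtain ⟨x, hx, rfl⟩ := he
  obtain ⟨x', hx', h⟩ := he'
  rcases Sym2.eq_iff.mp h with ⟨_, h2⟩ | ⟨h1, h2⟩
  · exact hne h2.symm
  · rw [h2] at hz'
    exact hz' hx

theorem cnb_eq (E : Finset (Sym2 ℕ)) (M F : Finset ℕ) :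
    cnb E M F = (M \ F).filter (fun z => star F z ⊆ E) := by
  ext z
  rw [mem_cnb, Finset.mem_filter, Finset.mem_sdiff, star_sub]
  tauto

/-- moment generating function of the number of common neighbours -/
theorem mgf_cnb {p : ℝ} (h0 : 0 ≤ p) (h1 : p ≤ 1) (U : Finset (Sym2 ℕ)) (M F : Finset ℕ)
    (hU : ∀ x ∈ F, ∀ z ∈ M, x ≠ z → s(x, z) ∈ U) (s : ℝ) :
    Ex p U (fun E => Real.exp (s * ((cnb E M F).card : ℝ))) ≤
      Real.exp ((Real.exp s - 1) * ((M \ F).card * p ^ F.card)) := by
  have h := mgf h0 h1 U (M \ F) (star F) F.card (by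
    intro z hz
    rw [Finset.mem_sdiff] at hz
    rw [star_sub]
    intro x hx
    exact hU x hx z hz.1 (fun h => hz.2 (h ▸ hx))) (by
    intro z hz z' hz' hne
    rw [Finset.mem_sdiff] at hz hz'
    exact star_disj hz.2 hz'.2 hne) (by
    intro z hz
    rw [Finset.mem_sdiff] at hz
    exact star_card hz.2) s
  refine le_trans (le_of_eq ?_) h
  apply Ex_congr
  intro E _
  have : (cnb E M F).card = ((M \ F).filter (fun z => star F z ⊆ E)).card := by
    rw [cnb_eq]
  rw [this]
  congr!

/-- union bound over small subsets -/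
theorem sum_small_le {D : ℕ} {V : Finset ℕ} {b β : ℝ} (hb1 : 1 ≤ b) (hVb : (V.card : ℝ) ≤ b)
    (hβ : 0 ≤ β) :
    ∑ k ∈ Finset.Icc 1 D, ∑ _F ∈ Finset.powersetCard k V, β ≤ D * b ^ D * β := by
  have h1 : ∀ k ∈ Finset.Icc 1 D, ∑ _F ∈ Finset.powersetCard k V, β ≤ b ^ D * β := by
    intro k hk
    rw [Finset.mem_Icc] at hk
    rw [Finset.sum_const, Finset.card_powersetCard, nsmul_eq_mul]
    apply mul_le_mul_of_nonneg_right _ hβ
    have h2 : ((V.card.choose k : ℕ) : ℝ) ≤ (V.card : ℝ) ^ k := by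
      have := Nat.choose_le_pow V.card k
      exact_mod_cast this
    calc ((V.card.choose k : ℕ) : ℝ) ≤ (V.card : ℝ) ^ k := h2
      _ ≤ b ^ k := pow_le_pow_left₀ (Nat.cast_nonneg _) hVb k
      _ ≤ b ^ D := pow_le_pow_right₀ hb1 hk.2
  refine (Finset.sum_le_sum h1).trans ?_
  rw [Finset.sum_const, Nat.card_Icc, nsmul_eq_mul]
  simp only [Nat.add_sub_cancel]
  linarith

end

end Pool.Agent.W505.Kd
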